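import Mathlib

/-! A checker for unit-propagation refutations about orientations of points in the plane. -/

namespace Pool.Agent.Lib.OrderType

/-- Abstract orientation determinants of `n` points in general position. -/
structure Chi (n : ℕ) (χ : ℕ → ℕ → ℕ → ℝ) : Prop where
  cyc : ∀ a b c, χ a b c = χ b c a
  swap : ∀ a b c, χ a b c = -χ b a c
  four : ∀ t a b c, χ a b c = χ t b c + χ a t c + χ a b t
  gp : ∀ t a b c d, χ t a b * χ t c d + χ t a c * χ t d b + χ t a d * χ t b c = 0
  ne : ∀ a b c, a < n → b < n → c < n → a ≠ b → a ≠ c → b ≠ c → χ a b c ≠ 0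

theorem Chi.neg {n : ℕ} {χ : ℕ → ℕ → ℕ → ℝ} (h : Chi n χ) : Chi n fun a b c => -χ a b c where
  cyc a b c := by rw [h.cyc]
  swap a b c := by rw [h.swap]
  four t a b c := by rw [h.four t a b c]; ring
  gp t a b c d := by linear_combination h.gp t a b c d
  ne a b c h1 h2 h3 h4 h5 h6 := neg_ne_zero.2 (h.ne a b c h1 h2 h3 h4 h5 h6)

def code (a b c : ℕ) : ℕ := a * 256 + b * 16 + c

def lit (a b c : ℕ) : ℕ :=
  bif Nat.ble a b && Nat.ble a c then code a b c else bif Nat.ble b c then code b c a else code c a b

def slit (e : Bool) (a b c : ℕ) : ℕ := bif e then lit a b c else lit b a c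

def ngl (L : ℕ) : ℕ := code (L / 256) (L % 16) (L / 16 % 16)

def val (χ : ℕ → ℕ → ℕ → ℝ) (L : ℕ) : Prop := 0 < χ (L / 256) (L / 16 % 16) (L % 16)

def Holds (χ : ℕ → ℕ → ℕ → ℝ) (C : List ℕ) : Prop := ∃ L ∈ C, val χ L

theorem val_code (χ : ℕ → ℕ → ℕ → ℝ) (a : ℕ) {b c : ℕ} (hb : b < 16) (hc : c < 16) :
    val χ (code a b c) ↔ 0 < χ a b c := by
  unfold val code
  rw [show (a * 256 + b * 16 + c) / 256 = a by omega,
    show (a * 256 + b * 16 + c) / 16 % 16 = b by omega,
    show (a * 256 + b * 16 + c) % 16 = c by omega]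

section
variable {n : ℕ} {χ : ℕ → ℕ → ℕ → ℝ} (h : Chi n χ)
include h

theorem val_lit {a b c : ℕ} (ha : a < 16) (hb : b < 16) (hc : c < 16) :
    val χ (lit a b c) ↔ 0 < χ a b c := by
  unfold lit
  cases (Nat.ble a b && Nat.ble a c)
  · cases Nat.ble b c
    · rw [cond_false, cond_false, val_code χ c ha hb, h.cyc c a b]
    · rw [cond_false, cond_true, val_code χ b hc ha, h.cyc a b c]
  · rw [cond_true, val_code χ a hb hc]

theorem val_slit (e : Bool) {a b c : ℕ} (ha : a < 16) (hb : b < 16) (hc : c < 16) :
    val χ (slit e a b c) ↔ 0 < (bif e then 1 else -1) * χ a b c := by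
  cases e
  · rw [slit, cond_false, val_lit h hb ha hc, h.swap b a c]; simp
  · rw [slit, cond_true, val_lit h ha hb hc]; simp

theorem not_val_ngl {L : ℕ} (hL : val χ L) : ¬ val χ (ngl L) := by
  rw [ngl, val_code χ _ (Nat.mod_lt _ (by norm_num)) (Nat.mod_lt _ (by norm_num)),
    h.cyc, h.swap, ← h.cyc, ← h.cyc]
  unfold val at hL
  rw [h.cyc] at hL
  rw [h.cyc, h.cyc]
  linarith

end

def dis (n : ℕ) (l : List ℕ) : Bool := l.all (fun a => decide (a < n)) && decide l.Nodup

/-- The clause described by the number `g`, if it is an admissible one. -/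
def ax (n mF mG z g : ℕ) : Option (List ℕ) :=
  let a := g / 4 % 16
  let b := g / 64 % 16
  let c := g / 1024 % 16
  let d := g / 16384 % 16
  let t := g / 262144 % 16
  let e1 := Nat.testBit g 22
  let e2 := Nat.testBit g 23
  let e3 := Nat.testBit g 24
  bif Nat.beq (g % 4) 0 then
    bif dis n [a, b, c, d] then some [lit b d c, lit d a c, lit b a d, lit a b c] else none
  else bif Nat.beq (g % 4) 1 then
    bif dis n [t, a, b, c, d] then some [slit e1 t a b, slit e1 t c d, slit e2 t a c, slit e2 t d b,
      slit e3 t a d, slit e3 t b c] else none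
  else bif Nat.beq (g % 4) 2 then
    bif dis n [a, b, c, d] && mF.testBit (16 * a + b) && mG.testBit (16 * c + d) then
      some [slit e1 a b c, slit (!e1) a b d, slit e2 c d a, slit (!e2) c d b] else none
  else
    bif dis n [a, b, c, z] && mF.testBit (16 * a + b) && mF.testBit (16 * b + c) &&
      mF.testBit (16 * c + a) then some [lit b a z, lit c b z, lit a c z] else none

def force (m : ℕ) (f : ℕ → Bool) : Bool := Nat.rec (f 0) (fun k _ => f (k + 1)) m

theorem force_eq (m : ℕ) (f : ℕ → Bool) : force m f = f m := by cases m <;> rfl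

def prop (n mF mG z : ℕ) (db : List (List ℕ)) : List ℕ → ℕ → Bool
  | [], _ => false
  | g :: gs, m =>
    match (bif g.testBit 0 then ax n mF mG z (g / 2) else db[g / 2]?) with
    | none => false
    | some C =>
      match C.filter fun L => !m.testBit L with
      | [] => true
      | [u] => force (m ||| 2 ^ ngl u) (prop n mF mG z db gs)
      | _ => false

def mask : List ℕ → ℕ
  | [] => 0
  | L :: C => 2 ^ L ||| mask C

def check (n mF mG z : ℕ) : List (List ℕ × List ℕ) → List (List ℕ) → Bool
  | [], _ => false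
  | p :: pf, db => force (mask p.1) (prop n mF mG z db p.2) &&
    (p.1.isEmpty || check n mF mG z pf (p.1 :: db))

section
variable {n : ℕ} {χ : ℕ → ℕ → ℕ → ℝ} (h : Chi n χ) (hn : n ≤ 16) {mF mG z : ℕ}
  (hnc : ∀ a b c d, mF.testBit (16 * a + b) = true → mG.testBit (16 * c + d) = true →
    a < n → b < n → c < n → d < n → [a, b, c, d].Nodup →
    0 < χ a b c * χ a b d ∨ 0 < χ c d a * χ c d b)
  (hni : ∀ a b c, mF.testBit (16 * a + b) = true → mF.testBit (16 * b + c) = true →
    mF.testBit (16 * c + a) = true → a < n → b < n → c < n → [a, b, c, z].Nodup →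
    ¬ (0 < χ a b z ∧ 0 < χ b c z ∧ 0 < χ c a z))
include h hn hnc hni

theorem ax_sound {g : ℕ} {C : List ℕ} (hC : ax n mF mG z g = some C) : Holds χ C := by
  unfold ax at hC
  simp only at hC
  generalize g / 4 % 16 = a at hC
  generalize g / 64 % 16 = b at hC
  generalize g / 1024 % 16 = c at hC
  generalize g / 16384 % 16 = d at hC
  generalize g / 262144 % 16 = t at hC
  generalize Nat.testBit g 22 = e1 at hC
  generalize Nat.testBit g 23 = e2 at hC
  generalize Nat.testBit g 24 = e3 at hC
  by_contra hne
  simp only [Bool.cond_eq_ite] at hC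
  split_ifs at hC with h1 h2 h3 h4 h5 h6 h7
  · obtain rfl := Option.some.inj hC
    simp only [dis, Bool.and_eq_true, List.all_cons, decide_eq_true_eq, List.all_nil, and_true,
      List.nodup_cons, List.mem_cons, List.not_mem_nil, or_false, not_or] at h2
    obtain ⟨⟨a1, a2, a3, a4⟩, ⟨b1, b2, b3⟩, ⟨b4, -⟩, -⟩ := h2
    have := h.ne a b c a1 a2 a3 b1 b2 b4
    simp only [Holds, List.mem_cons, List.not_mem_nil, or_false, exists_eq_or_imp, exists_eq_left,
      not_or] at hne
    rw [val_lit h (by omega) (by omega) (by omega), val_lit h (by omega) (by omega) (by omega),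
      val_lit h (by omega) (by omega) (by omega), val_lit h (by omega) (by omega) (by omega),
      h.swap b d c, h.swap d a c, h.swap b a d] at hne
    have h8 := h.four d a b c
    obtain ⟨c1, c2, c3, c4⟩ := hne
    exact this (by linarith)
  · obtain rfl := Option.some.inj hC
    simp only [dis, Bool.and_eq_true, List.all_cons, decide_eq_true_eq, List.all_nil, and_true,
      List.nodup_cons, List.mem_cons, List.not_mem_nil, or_false, not_or] at h4
    obtain ⟨⟨a0, a1, a2, a3, a4⟩, ⟨b0, b1, b2, b3⟩, ⟨b4, -, -⟩, -, b5, -⟩ := h4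
    have n1 := h.ne t a b a0 a1 a2 b0 b1 b4
    have n2 := h.ne t c d a0 a3 a4 b2 b3 b5
    simp only [Holds, List.mem_cons, List.not_mem_nil, or_false, exists_eq_or_imp, exists_eq_left,
      not_or] at hne
    rw [val_slit h _ (by omega) (by omega) (by omega), val_slit h _ (by omega) (by omega) (by omega),
      val_slit h _ (by omega) (by omega) (by omega), val_slit h _ (by omega) (by omega) (by omega),
      val_slit h _ (by omega) (by omega) (by omega), val_slit h _ (by omega) (by omega) (by omega)]
      at hne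
    obtain ⟨c1, c2, c3, c4, c5, c6⟩ := hne
    have key : ∀ (e : Bool) (x y : ℝ), ¬ 0 < (bif e then 1 else -1) * x →
        ¬ 0 < (bif e then 1 else -1) * y → 0 ≤ x * y := by
      intro e x y hx hy
      cases e <;> simp at hx hy
      · positivity
      · exact mul_nonneg_of_nonpos_of_nonpos hx hy
    have k1 := key _ _ _ c1 c2
    have k2 := key _ _ _ c3 c4
    have k3 := key _ _ _ c5 c6
    have h8 := h.gp t a b c d
    exact mul_ne_zero n1 n2 (by linarith)
  · obtain rfl := Option.some.inj hC
    simp only [dis, Bool.and_eq_true, List.all_cons, decide_eq_true_eq, List.all_nil,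
      and_true] at h6
    obtain ⟨⟨⟨⟨a1, a2, a3, a4⟩, b1⟩, b2⟩, b3⟩ := h6
    have h8 := hnc a b c d b2 b3 a1 a2 a3 a4 b1
    simp only [Holds, List.mem_cons, List.not_mem_nil, or_false, exists_eq_or_imp, exists_eq_left,
      not_or] at hne
    rw [val_slit h _ (by omega) (by omega) (by omega), val_slit h _ (by omega) (by omega) (by omega),
      val_slit h _ (by omega) (by omega) (by omega), val_slit h _ (by omega) (by omega) (by omega)]
      at hne
    obtain ⟨c1, c2, c3, c4⟩ := hne
    have key : ∀ (e : Bool) (x y : ℝ), ¬ 0 < (bif e then 1 else -1) * x →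
        ¬ 0 < (bif !e then 1 else -1) * y → x * y ≤ 0 := by
      intro e x y hx hy
      cases e <;> simp at hx hy
      · exact mul_nonpos_of_nonneg_of_nonpos hx hy
      · exact mul_nonpos_of_nonpos_of_nonneg hx hy
    have k1 := key _ _ _ c1 c2
    have k2 := key _ _ _ c3 c4
    rcases h8 with h8 | h8 <;> linarith
  · obtain rfl := Option.some.inj hC
    simp only [dis, Bool.and_eq_true, List.all_cons, decide_eq_true_eq, List.all_nil,
      and_true] at h7
    obtain ⟨⟨⟨⟨⟨a1, a2, a3, a4⟩, b1⟩, b2⟩, b3⟩, b4⟩ := h7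
    have h8 := hni a b c b2 b3 b4 a1 a2 a3 b1
    simp only [List.nodup_cons, List.mem_cons, List.not_mem_nil, or_false, not_or] at b1
    obtain ⟨⟨d1, d2, d3⟩, ⟨d4, d5⟩, d6, -⟩ := b1
    simp only [Holds, List.mem_cons, List.not_mem_nil, or_false, exists_eq_or_imp, exists_eq_left,
      not_or] at hne
    rw [val_lit h (by omega) (by omega) (by omega), val_lit h (by omega) (by omega) (by omega),
      val_lit h (by omega) (by omega) (by omega), h.swap b a z, h.swap c b z, h.swap a c z] at hne
    obtain ⟨c1, c2, c3⟩ := hne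
    exact h8 ⟨lt_of_le_of_ne (by linarith) (h.ne a b z a1 a2 a4 d1 d3 d5).symm,
      lt_of_le_of_ne (by linarith) (h.ne b c z a2 a3 a4 d4 d5 d6).symm,
      lt_of_le_of_ne (by linarith) (h.ne c a z a3 a1 a4 (Ne.symm d2) d6 d3).symm⟩

theorem prop_sound {db : List (List ℕ)} (hdb : ∀ C ∈ db, Holds χ C) : ∀ (gs : List ℕ) (m : ℕ),
    prop n mF mG z db gs m = true → (∀ L, m.testBit L = true → ¬ val χ L) → False
  | [], _, h1, _ => by simp [prop] at h1
  | g :: gs, m, h1, h2 => by
    unfold prop at h1
    split at h1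
    · cases h1
    · rename_i C hC
      have hH : Holds χ C := by
        cases hg : g.testBit 0
        · rw [hg, cond_false] at hC
          exact hdb C (List.mem_of_getElem? hC)
        · rw [hg, cond_true] at hC
          exact ax_sound h hn hnc hni hC
      obtain ⟨L, hL, hv⟩ := hH
      have hm : L ∈ C.filter fun L => !m.testBit L := by
        refine List.mem_filter.2 ⟨hL, ?_⟩
        cases hb : m.testBit L
        · rfl
        · exact absurd hv (h2 L hb)
      split at h1
      · rename_i h3; rw [h3] at hm; cases hm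
      · rename_i u h3
        rw [h3, List.mem_singleton] at hm
        subst hm
        rw [force_eq] at h1
        refine prop_sound hdb gs _ h1 fun L' hL' => ?_
        rw [Nat.testBit_or, Bool.or_eq_true, Nat.testBit_two_pow, decide_eq_true_eq] at hL'
        rcases hL' with hL' | rfl
        · exact h2 _ hL'
        · exact not_val_ngl h hv
      · cases h1

omit h hn hnc hni in
theorem mem_of_mask : ∀ (C : List ℕ) (L : ℕ), (mask C).testBit L = true → L ∈ C
  | [], _, h => by simp [mask] at h
  | a :: C, L, h => by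
    rw [mask, Nat.testBit_or, Bool.or_eq_true, Nat.testBit_two_pow, decide_eq_true_eq] at h
    rcases h with rfl | h
    · exact List.mem_cons_self
    · exact List.mem_cons_of_mem _ (mem_of_mask C L h)

theorem check_sound : ∀ (pf : List (List ℕ × List ℕ)) (db : List (List ℕ)),
    check n mF mG z pf db = true → (∀ C ∈ db, Holds χ C) → False
  | [], _, h1, _ => by simp [check] at h1
  | p :: pf, db, h1, hdb => by
    rw [check, Bool.and_eq_true, force_eq, Bool.or_eq_true] at h1
    have hp : Holds χ p.1 := by
      by_contra hne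
      exact prop_sound h hn hnc hni hdb _ _ h1.1 fun L hL hv => hne ⟨L, mem_of_mask _ _ hL, hv⟩
    rcases h1.2 with h2 | h2
    · rw [List.isEmpty_iff] at h2
      rw [h2] at hp
      obtain ⟨_, h3, _⟩ := hp
      cases h3
    · exact check_sound pf _ h2 fun C hC => by
        rcases List.mem_cons.1 hC with rfl | hC
        · exact hp
        · exact hdb C hC

end

end Pool.Agent.Lib.OrderType
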